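import Pool.Agent.H9x.Q.Hyb
import Pool.Agent.H620R2.Gauge.C

/-!
# Sizes of circuits; countability
-/

set_option autoImplicit false

namespace Pool.Agent.H9x.Q

open Pool.Agent.NPC Pool.Agent.H622R2 Pool.Agent.H620R2.Gauge Finset

/-- **The circuits of a family have polynomial size.** -/
theorem QFamily.size (F : QFamily) : ∃ P : Polynomial ℕ, ∀ n,
    (F.circ n).length ≤ P.eval n ∧ Short (P.eval n) (F.circ n) := by
  obtain ⟨p, hp⟩ := (poly_of_polyTime F.poly).sz_le
  refine ⟨p.comp (Polynomial.C 4 * Polynomial.X + Polynomial.C 1), fun n => ?_⟩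
  have h1 : sz (F.circ n) ≤ (p.comp (Polynomial.C 4 * Polynomial.X + Polynomial.C 1)).eval n := by
    have h2 := hp (List.replicate n true)
    have h3 := sz_listBool_ge (bits (F.circ (List.replicate n true).length))
    rw [bits_length] at h3
    have h4 := eval_mono p (sz_listBool_le (List.replicate n true))
    rw [List.length_replicate] at h2 h3 h4
    simp only [Polynomial.eval_comp, Polynomial.eval_add, Polynomial.eval_mul, Polynomial.eval_C,
      Polynomial.eval_X]
    omega
  refine ⟨(length_lt_sz _).le.trans h1, fun l r h => ?_⟩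
  have h5 : sz (Gate.query l r) < sz (F.circ n) := sz_le_of_mem h
  have h6 : sz (Gate.query l r) = sz l + sz r + 1 + 3 + 3 ∨ sz l < sz (Gate.query l r) := by
    right
    show sz l < sz (Gate.query l r).data
    simp only [Gate.data, sz_inr, sz_pair]
    omega
  have h7 : sz l < sz (Gate.query l r) := by
    rcases h6 with h6 | h6 <;> omega
  have h8 := length_lt_sz l
  omega

instance QFamily.countable : Countable QFamily := by
  have h1 : Countable {D : List Bool → List Bool | PolyTime D} := countable_polyTime.to_subtype
  have h2 := CC.poly_countable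
  let G : QFamily → {D : List Bool → List Bool | PolyTime D} × Polynomial ℕ :=
    fun F => (⟨_, F.poly⟩, F.anc)
  have hG : Function.Injective G := by
    intro F F' h
    obtain ⟨c, p, a⟩ := F
    obtain ⟨c', p', a'⟩ := F'
    simp only [G, Prod.mk.injEq, Subtype.mk.injEq] at h
    obtain ⟨h1, rfl⟩ := h
    have : c = c' := by
      funext n
      have h3 := congrFun h1 (List.replicate n true)
      simp only [List.length_replicate] at h3
      exact bits_injective h3
    subst this
    rfl
  exact hG.countable

theorem act_congr {m B : ℕ} {A A' : Oracle} (h : ∀ y : List Bool, y.length ≤ B → A y = A' y)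
    (g : Gate) (hg : ∀ l r, g = .query l r → l.length ≤ B) (ψ : Basis m → ℂ) :
    g.act A ψ = g.act A' ψ := by
  cases g with
  | query l r =>
    funext z
    simp only [Gate.act]
    rw [h (l.map (bit z)) (by rw [List.length_map]; exact hg l r rfl)]
  | _ => rfl

theorem run_congr {m B : ℕ} {A A' : Oracle} (h : ∀ y : List Bool, y.length ≤ B → A y = A' y)
    (C : List Gate) (hC : Short B C) : ∀ ψ : Basis m → ℂ, run A C ψ = run A' C ψ := by
  induction C with
  | nil => intro ψ; rfl
  | cons g C ih =>
    intro ψ
    simp only [run]
    rw [act_congr h g (fun l r hl => hC l r (by rw [hl]; simp)) ψ]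
    exact ih (fun l r hl => hC l r (List.mem_cons_of_mem _ hl)) _

theorem prob_congr {B : ℕ} {A A' : Oracle} (h : ∀ y : List Bool, y.length ≤ B → A y = A' y)
    (C : List Gate) (hC : Short B C) (m : ℕ) (x : List Bool) : prob A C m x = prob A' C m x := by
  unfold prob
  rw [run_congr h C hC]

end Pool.Agent.H9x.Q
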