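import Pool.Agent.H620R2.Gauge.Defs

/-!
# Quantum circuits with oracle gates, and `BQP` relative to an oracle
-/

set_option autoImplicit false

namespace Pool.Agent.H9x.Q

open Pool.Agent.NPC Pool.Agent.H620R2.Gauge Finset

/-- The gates of a quantum circuit, acting on qubits numbered `0, 1, 2, ...`: the Hadamard gate and
the phase gate `diag (1, exp (i π / 4))` on the qubit `q`; the controlled negation with control `q`
and target `r`; and the oracle gate which adds the answer to the question given by the qubits in the
list `l` to the qubit `r`. -/
inductive Gate : Type
  | had (q : ℕ) : Gate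
  | tgate (q : ℕ) : Gate
  | cnot (q r : ℕ) : Gate
  | query (l : List ℕ) (r : ℕ) : Gate

/-- a gate as structured data -/
def Gate.data : Gate → (ℕ ⊕ ℕ) ⊕ ((ℕ × ℕ) ⊕ (List ℕ × ℕ))
  | .had q => .inl (.inl q)
  | .tgate q => .inl (.inr q)
  | .cnot q r => .inr (.inl (q, r))
  | .query l r => .inr (.inr (l, r))

theorem Gate.data_injective : Function.Injective Gate.data := by
  intro a b h
  cases a <;> cases b <;> simp [Gate.data] at h <;> simp [h]

/-- Gates are coded as structured data. -/
instance : TEnc Gate := ⟨fun g => toT g.data, fun _ _ h => Gate.data_injective (TEnc.inj h)⟩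

/-- The basis states of `m` qubits. -/
abbrev Basis (m : ℕ) : Type := Fin m → Bool

/-- The value of the qubit number `q` (`false` if there is no such qubit). -/
def bit {m : ℕ} (z : Basis m) (q : ℕ) : Bool := if h : q < m then z ⟨q, h⟩ else false

/-- The basis state `z` with the value of the qubit number `q` replaced by `b`. -/
def put {m : ℕ} (z : Basis m) (q : ℕ) (b : Bool) : Basis m := fun i => if i.1 = q then b else z i

/-- The action of a gate on a state `ψ` of `m` qubits, relative to the oracle `A`. (A gate whose
target does not exist or is also one of its other qubits acts as the identity.) -/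
noncomputable def Gate.act (A : Oracle) {m : ℕ} : Gate → (Basis m → ℂ) → (Basis m → ℂ)
  | .had q, ψ => fun z => if q < m then
      (ψ (put z q false) + (if bit z q then -1 else 1) * ψ (put z q true)) / (Real.sqrt 2 : ℂ)
      else ψ z
  | .tgate q, ψ => fun z => (if bit z q then Complex.exp (Real.pi / 4 * Complex.I) else 1) * ψ z
  | .cnot q r, ψ => fun z => if q = r then ψ z else ψ (put z r (xor (bit z r) (bit z q)))
  | .query l r, ψ => fun z => if r ∈ l then ψ z else ψ (put z r (xor (bit z r) (A (l.map (bit z)))))

/-- The final state of the circuit `C` started in the state `ψ`. -/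
noncomputable def run (A : Oracle) {m : ℕ} : List Gate → (Basis m → ℂ) → (Basis m → ℂ)
  | [], ψ => ψ
  | g :: C, ψ => run A C (g.act A ψ)

/-- The basis state in which the first qubits contain the string `x` and the others are `0`. -/
def inp (m : ℕ) (x : List Bool) : Basis m := fun i => x.getD i false

/-- The state `|z⟩`. -/
def ket {m : ℕ} (z : Basis m) : Basis m → ℂ := fun w => if w = z then 1 else 0

/-- The probability that the first qubit is measured to be one, when the circuit `C` on `m` qubits
has been started with the input `x` in the first qubits and zeros in the others. -/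
noncomputable def prob (A : Oracle) (C : List Gate) (m : ℕ) (x : List Bool) : ℝ :=
  ∑ z : Basis m, if bit z 0 then ‖run A C (ket (inp m x)) z‖ ^ 2 else 0

/-- A polynomial-time uniform family of quantum circuits with oracle gates. The circuit for the
inputs of length `n` has `n + 1 + anc n` qubits. -/
structure QFamily : Type where
  /-- the circuit for the inputs of length `n` -/
  circ : ℕ → List Gate
  /-- its code is computed in polynomial time from any string of length `n` -/
  poly : PolyTime (fun u : List Bool => bits (circ u.length))
  /-- the number of additional qubits -/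
  anc : Polynomial ℕ

/-- The probability that the family accepts the input `x`, relative to the oracle `A`. -/
noncomputable def QFamily.acc (F : QFamily) (A : Oracle) (x : List Bool) : ℝ :=
  prob A (F.circ x.length) (x.length + 1 + F.anc.eval x.length) x

/-- The language `L` is in `BQP` relative to `A`. -/
def IsBQP (A : Oracle) (L : Set (List Bool)) : Prop :=
  ∃ F : QFamily, ∀ x, (x ∈ L → 2 / 3 ≤ F.acc A x) ∧ (x ∉ L → F.acc A x ≤ 1 / 3)

end Pool.Agent.H9x.Q
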