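import Pool.Agent.H9x.Q.Defs
import Pool.Agent.R562.QH.Hybrid

/-!
# The hybrid argument for circuits with oracle gates
-/

set_option autoImplicit false

namespace Pool.Agent.H9x.Q

open Pool.Agent.NPC Pool.Agent.H620R2.Gauge Finset
open Pool.Agent.R562.QH (nrm nrm_sq nrm_nonneg nrm_add_le nrm_congr)

variable {m : ℕ}

@[simp] theorem bit_put_self {z : Basis m} {q : ℕ} (hq : q < m) (b : Bool) :
    bit (put z q b) q = b := by simp [bit, put, hq]

@[simp] theorem bit_put_ne {z : Basis m} {q r : ℕ} (h : r ≠ q) (b : Bool) :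
    bit (put z q b) r = bit z r := by
  by_cases h1 : r < m
  · simp [bit, put, h1, h]
  · simp [bit, h1]

@[simp] theorem put_put (z : Basis m) (q : ℕ) (b b' : Bool) : put (put z q b) q b' = put z q b' := by
  funext i
  unfold put
  split_ifs <;> rfl

@[simp] theorem put_bit (z : Basis m) (q : ℕ) : put z q (bit z q) = z := by
  funext i
  unfold put bit
  split_ifs with h1 h2
  · subst h1; rfl
  · exact absurd i.2 (h1 ▸ h2)
  · rfl

theorem put_of_le {z : Basis m} {q : ℕ} (h : m ≤ q) (b : Bool) : put z q b = z := by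
  funext i
  unfold put
  rw [if_neg (by have := i.2; omega)]

theorem bit_of_le {z : Basis m} {q : ℕ} (h : m ≤ q) : bit z q = false := by
  unfold bit
  rw [dif_neg (by omega)]

/-- xor with a function of the other bits -/
def flipBy (r : ℕ) (c : Basis m → Bool) (z : Basis m) : Basis m := put z r (xor (bit z r) (c z))

theorem flipBy_invol {r : ℕ} {c : Basis m → Bool} (hc : ∀ z b, c (put z r b) = c z) :
    Function.Involutive (flipBy r c) := by
  intro z
  unfold flipBy
  rw [put_put, hc]
  by_cases hr : r < m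
  · rw [bit_put_self hr]
    have : xor (xor (bit z r) (c z)) (c z) = bit z r := by cases bit z r <;> cases c z <;> rfl
    rw [this, put_bit]
  · rw [put_of_le (by omega)]

theorem sum_flipBy {r : ℕ} {c : Basis m → Bool} (hc : ∀ z b, c (put z r b) = c z)
    (f : Basis m → ℝ) : ∑ z, f (flipBy r c z) = ∑ z, f z :=
  Equiv.sum_comp (flipBy_invol hc).toPerm f

theorem map_bit_put {z : Basis m} {l : List ℕ} {r : ℕ} (h : r ∉ l) (b : Bool) :
    l.map (bit (put z r b)) = l.map (bit z) :=
  List.map_congr_left fun q hq => bit_put_ne (by rintro rfl; exact h hq) b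

theorem act_cnot (A : Oracle) {q r : ℕ} (h : q ≠ r) (ψ : Basis m → ℂ) :
    (Gate.cnot q r).act A ψ = fun z => ψ (flipBy r (fun z => bit z q) z) := by
  funext z
  simp [Gate.act, h, flipBy]

theorem act_query (A : Oracle) {l : List ℕ} {r : ℕ} (h : r ∉ l) (ψ : Basis m → ℂ) :
    (Gate.query l r).act A ψ = fun z => ψ (flipBy r (fun z => A (l.map (bit z))) z) := by
  funext z
  simp [Gate.act, h, flipBy]

theorem had_pt (a b : ℂ) : ‖(a + b) / (Real.sqrt 2 : ℂ)‖ ^ 2 + ‖(a - b) / (Real.sqrt 2 : ℂ)‖ ^ 2 =
    ‖a‖ ^ 2 + ‖b‖ ^ 2 := by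
  have h2 : ‖(Real.sqrt 2 : ℂ)‖ ^ 2 = 2 := by
    rw [Complex.norm_real, Real.norm_eq_abs, sq_abs, Real.sq_sqrt (by norm_num)]
  rw [norm_div, norm_div, div_pow, div_pow, h2]
  have := parallelogram_law_with_norm ℝ a b
  nlinarith [this]

/-- **The gates are isometries.** -/
theorem act_norm (A : Oracle) (g : Gate) (ψ : Basis m → ℂ) :
    ∑ z, ‖g.act A ψ z‖ ^ 2 = ∑ z, ‖ψ z‖ ^ 2 := by
  cases g with
  | had q =>
    by_cases hq : q < m
    · have hc : ∀ (z : Basis m) (b : Bool), (fun _ : Basis m => true) (put z q b) =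
          (fun _ : Basis m => true) z := fun _ _ => rfl
      have h1 : ∀ f : Basis m → ℝ, ∑ z, f z = (1 / 2) * ∑ z, (f z + f (flipBy q (fun _ => true) z)) := by
        intro f
        rw [sum_add_distrib, sum_flipBy hc]
        ring
      rw [h1, h1 (fun z => ‖ψ z‖ ^ 2)]
      congr 1
      refine sum_congr rfl fun z _ => ?_
      have hbf : bit (flipBy q (fun _ => true) z) q = !bit z q := by
        unfold flipBy
        rw [bit_put_self hq]
        cases bit z q <;> rfl
      have hpf : ∀ b, put (flipBy q (fun _ => true) z) q b = put z q b := fun b => by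
        unfold flipBy
        rw [put_put]
      simp only [Gate.act, if_pos hq, hbf, hpf]
      unfold flipBy
      cases hb : bit z q with
      | false =>
        have hz : put z q false = z := by rw [← hb, put_bit]
        simp only [Bool.false_eq_true, if_false, one_mul, Bool.xor_true, Bool.not_false, if_true,
          neg_mul, hz, ← sub_eq_add_neg]
        exact had_pt _ _
      | true =>
        have hz : put z q true = z := by rw [← hb, put_bit]
        simp only [Bool.false_eq_true, if_false, one_mul, Bool.xor_true, Bool.not_true, if_true,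
          neg_mul, hz, ← sub_eq_add_neg]
        have := had_pt (ψ (put z q false)) (ψ z)
        linarith
    · simp only [Gate.act, if_neg hq]
  | tgate q =>
    refine sum_congr rfl fun z _ => ?_
    simp only [Gate.act]
    rw [norm_mul]
    have : ‖(if bit z q then Complex.exp (Real.pi / 4 * Complex.I) else 1 : ℂ)‖ = 1 := by
      split_ifs
      · have := Complex.norm_exp_ofReal_mul_I (Real.pi / 4)
        push_cast at this
        exact this
      · simp
    rw [this, one_mul]
  | cnot q r =>
    by_cases h : q = r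
    · simp [Gate.act, h]
    · rw [act_cnot A h]
      exact sum_flipBy (fun z b => bit_put_ne h b) fun z => ‖ψ z‖ ^ 2
  | query l r =>
    by_cases h : r ∈ l
    · simp [Gate.act, h]
    · rw [act_query A h]
      exact sum_flipBy (fun z b => by rw [map_bit_put h]) fun z => ‖ψ z‖ ^ 2

theorem act_sub (A : Oracle) (g : Gate) (ψ φ : Basis m → ℂ) :
    g.act A (ψ - φ) = g.act A ψ - g.act A φ := by
  funext z
  cases g with
  | had q =>
    simp only [Gate.act, Pi.sub_apply]
    split_ifs <;> ring
  | tgate q => simp only [Gate.act, Pi.sub_apply]; ring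
  | cnot q r => simp only [Gate.act, Pi.sub_apply]; split_ifs <;> rfl
  | query l r => simp only [Gate.act, Pi.sub_apply]; split_ifs <;> rfl

/-- the question asked by the gate in a basis state -/
def Gate.asks : Gate → Basis m → Option (List Bool)
  | .query l _, z => some (l.map (bit z))
  | _, _ => none

open scoped Classical in
/-- the weight of the questions on which the oracles differ -/
noncomputable def wt (A A' : Oracle) (g : Gate) (ψ : Basis m → ℂ) : ℝ :=
  ∑ z, if ∃ y, g.asks z = some y ∧ A' y ≠ A y then ‖ψ z‖ ^ 2 else 0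

theorem wt_nonneg (A A' : Oracle) (g : Gate) (ψ : Basis m → ℂ) : 0 ≤ wt A A' g ψ :=
  sum_nonneg fun z _ => by split_ifs <;> positivity

theorem act_diff (A A' : Oracle) (g : Gate) (ψ : Basis m → ℂ) :
    nrm (g.act A' ψ - g.act A ψ) ≤ 2 * Real.sqrt (wt A A' g ψ) := by
  have key : nrm (g.act A' ψ - g.act A ψ) ^ 2 ≤ 4 * wt A A' g ψ := by
    rw [nrm_sq]
    by_cases hg : ∃ l r, g = .query l r ∧ r ∉ l
    · obtain ⟨l, r, rfl, hr⟩ := hg
      rw [act_query A hr, act_query A' hr]
      set P : Basis m → Prop := fun z => A' (l.map (bit z)) ≠ A (l.map (bit z)) with hP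
      classical
      have hPp : ∀ (z : Basis m) b, P (put z r b) ↔ P z := fun z b => by
        simp only [hP, map_bit_put hr]
      have e1 : wt A A' (.query l r) ψ = ∑ z, if P z then ‖ψ z‖ ^ 2 else 0 := by
        unfold wt
        refine sum_congr rfl fun z _ => ?_
        simp only [Gate.asks, Option.some.injEq, exists_eq_left']
        congr
      rw [e1]
      have e2 : ∀ (B : Oracle), ∑ z, (if P z then ‖ψ (flipBy r (fun z => B (l.map (bit z))) z)‖ ^ 2
          else 0) = ∑ z, if P z then ‖ψ z‖ ^ 2 else 0 := by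
        intro B
        rw [← sum_flipBy (r := r) (c := fun z => B (l.map (bit z)))
          (fun z b => by rw [map_bit_put hr]) (fun z => if P z then ‖ψ z‖ ^ 2 else 0)]
        refine sum_congr rfl fun z _ => ?_
        unfold flipBy
        simp only [hPp]
      calc ∑ z, ‖((fun z => ψ (flipBy r (fun z => A' (l.map (bit z))) z)) -
            fun z => ψ (flipBy r (fun z => A (l.map (bit z))) z)) z‖ ^ 2
          ≤ ∑ z, ((if P z then 2 * ‖ψ (flipBy r (fun z => A' (l.map (bit z))) z)‖ ^ 2 else 0) +
            (if P z then 2 * ‖ψ (flipBy r (fun z => A (l.map (bit z))) z)‖ ^ 2 else 0)) := by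
            refine sum_le_sum fun z _ => ?_
            simp only [Pi.sub_apply]
            by_cases h : P z
            · rw [if_pos h, if_pos h]
              have h1 := norm_sub_le (ψ (flipBy r (fun z => A' (l.map (bit z))) z))
                (ψ (flipBy r (fun z => A (l.map (bit z))) z))
              have h2 := norm_nonneg (ψ (flipBy r (fun z => A' (l.map (bit z))) z) -
                ψ (flipBy r (fun z => A (l.map (bit z))) z))
              nlinarith [sq_nonneg (‖ψ (flipBy r (fun z => A' (l.map (bit z))) z)‖ -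
                ‖ψ (flipBy r (fun z => A (l.map (bit z))) z)‖)]
            · rw [if_neg h, if_neg h]
              have : A' (l.map (bit z)) = A (l.map (bit z)) := by
                simpa [hP] using h
              unfold flipBy
              simp only [this, sub_self]
              simp
        _ = 4 * ∑ z, if P z then ‖ψ z‖ ^ 2 else 0 := by
            rw [sum_add_distrib]
            have e3 : ∀ B : Oracle, ∑ z, (if P z then 2 * ‖ψ (flipBy r (fun z =>
                B (l.map (bit z))) z)‖ ^ 2 else 0) = 2 * ∑ z, if P z then ‖ψ z‖ ^ 2 else 0 := by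
              intro B
              rw [← e2 B, mul_sum]
              refine sum_congr rfl fun z _ => ?_
              split_ifs <;> ring
            rw [e3, e3]
            ring
    · have : g.act A' ψ = g.act A ψ := by
        cases g with
        | had q => rfl
        | tgate q => rfl
        | cnot q r => rfl
        | query l r =>
          have hr : r ∈ l := by
            by_contra h
            exact hg ⟨l, r, rfl, h⟩
          funext z
          simp [Gate.act, hr]
      rw [this, sub_self]
      simp only [Pi.zero_apply, norm_zero]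
      have := wt_nonneg A A' g ψ
      simp
      exact this
  have h2 : nrm (g.act A' ψ - g.act A ψ) ≤ Real.sqrt (4 * wt A A' g ψ) := Real.le_sqrt_of_sq_le key
  rw [Real.sqrt_mul (by norm_num)] at h2
  have h3 : Real.sqrt 4 = 2 := by
    rw [show (4 : ℝ) = 2 ^ 2 by norm_num, Real.sqrt_sq (by norm_num)]
  rwa [h3] at h2

theorem nrm_act (A : Oracle) (g : Gate) (ψ : Basis m → ℂ) : nrm (g.act A ψ) = nrm ψ :=
  nrm_congr (act_norm A g ψ)

theorem run_sub (A : Oracle) (C : List Gate) : ∀ ψ φ : Basis m → ℂ,
    run A C (ψ - φ) = run A C ψ - run A C φ := by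
  induction C with
  | nil => intro ψ φ; rfl
  | cons g C ih => intro ψ φ; simp only [run]; rw [act_sub, ih]

theorem nrm_run (A : Oracle) (C : List Gate) : ∀ ψ : Basis m → ℂ, nrm (run A C ψ) = nrm ψ := by
  induction C with
  | nil => intro ψ; rfl
  | cons g C ih => intro ψ; simp only [run]; rw [ih, nrm_act]

/-- the total weight of the questions on which the oracles differ -/
noncomputable def tot (A A' : Oracle) : List Gate → (Basis m → ℂ) → ℝ
  | [], _ => 0
  | g :: C, ψ => wt A A' g ψ + tot A A' C (g.act A ψ)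

theorem tot_nonneg (A A' : Oracle) (C : List Gate) : ∀ ψ : Basis m → ℂ, 0 ≤ tot A A' C ψ := by
  induction C with
  | nil => intro ψ; exact le_rfl
  | cons g C ih => intro ψ; exact add_nonneg (wt_nonneg _ _ _ _) (ih _)

/-- **The hybrid argument.** -/
theorem hybrid (A A' : Oracle) (C : List Gate) : ∀ ψ : Basis m → ℂ,
    nrm (run A' C ψ - run A C ψ) ^ 2 ≤ 4 * C.length * tot A A' C ψ := by
  induction C with
  | nil =>
    intro ψ
    have : run A' [] ψ - run A [] ψ = 0 := by simp [run]
    rw [this, nrm_sq]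
    simp [tot]
  | cons g C ih =>
    intro ψ
    have e1 : run A' (g :: C) ψ - run A (g :: C) ψ = (run A' C (g.act A' ψ - g.act A ψ)) +
        (run A' C (g.act A ψ) - run A C (g.act A ψ)) := by
      simp only [run]
      rw [run_sub]
      abel
    have h1 : nrm (run A' (g :: C) ψ - run A (g :: C) ψ) ≤ 2 * Real.sqrt (wt A A' g ψ) +
        nrm (run A' C (g.act A ψ) - run A C (g.act A ψ)) := by
      rw [e1]
      refine (nrm_add_le _ _).trans (add_le_add ?_ le_rfl)
      rw [nrm_run]
      exact act_diff A A' g ψ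
    have h2 := ih (g.act A ψ)
    have h3 := Real.sq_sqrt (wt_nonneg A A' g ψ)
    have h4 := Real.sqrt_nonneg (wt A A' g ψ)
    set a := Real.sqrt (wt A A' g ψ)
    set b := nrm (run A' C (g.act A ψ) - run A C (g.act A ψ)) with hb
    have hb0 : 0 ≤ b := nrm_nonneg _
    have h0 := nrm_nonneg (run A' (g :: C) ψ - run A (g :: C) ψ)
    have h5 : nrm (run A' (g :: C) ψ - run A (g :: C) ψ) ^ 2 ≤ (2 * a + b) ^ 2 :=
      pow_le_pow_left₀ h0 h1 2
    have ht := tot_nonneg A A' C (g.act A ψ)
    rw [List.length_cons]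
    push_cast
    simp only [tot]
    set T := tot A A' C (g.act A ψ)
    set n : ℝ := (C.length : ℝ) with hn
    have hn0 : 0 ≤ n := Nat.cast_nonneg _
    refine h5.trans ?_
    rw [← h3]
    rcases Nat.eq_zero_or_pos C.length with h | h
    · have : n = 0 := by rw [hn, h]; simp
      rw [this] at h2 ⊢
      have hb2 : b ^ 2 ≤ 0 := by linarith
      have : b = 0 := by nlinarith
      rw [this]
      nlinarith
    · have hn1 : 1 ≤ n := by rw [hn]; exact_mod_cast h
      -- 4 a b ≤ 4 n a ^ 2 + b ^ 2 / n ≤ 4 n a ^ 2 + 4 T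
      have h6 : 4 * a * b ≤ 4 * n * a ^ 2 + 4 * T := by
        have h7 : 0 ≤ (2 * n * a - b) ^ 2 := sq_nonneg _
        have h8 : n * (4 * a * b) ≤ n * (4 * n * a ^ 2 + 4 * T) := by nlinarith
        exact le_of_mul_le_mul_left h8 (by linarith)
      nlinarith

/-- the questions of the circuit are not longer than `B` -/
def Short (B : ℕ) (C : List Gate) : Prop := ∀ l r, Gate.query l r ∈ C → l.length ≤ B

theorem sum_wt {ι : Type} [Fintype ι] (A : Oracle) (F : ι → Oracle) (K : ℝ) (B : ℕ) (hK0 : 0 ≤ K)
    (hK : ∀ y : List Bool, y.length ≤ B → ((univ.filter fun i => F i y ≠ A y).card : ℝ) ≤ K)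
    (g : Gate) (hg : ∀ l r, g = .query l r → l.length ≤ B) (ψ : Basis m → ℂ) :
    ∑ i, wt A (F i) g ψ ≤ K * ∑ z, ‖ψ z‖ ^ 2 := by
  classical
  unfold wt
  rw [sum_comm, mul_sum]
  refine sum_le_sum fun z _ => ?_
  rw [← sum_filter, sum_const, nsmul_eq_mul]
  refine mul_le_mul_of_nonneg_right ?_ (by positivity)
  cases g with
  | query l r =>
    refine le_trans ?_ (hK (l.map (bit z)) (by rw [List.length_map]; exact hg l r rfl))
    norm_cast
    refine card_le_card fun i hi => ?_
    rw [mem_filter] at hi ⊢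
    obtain ⟨_, y, hy, hy'⟩ := hi
    simp only [Gate.asks, Option.some.injEq] at hy
    subst hy
    exact ⟨mem_univ _, hy'⟩
  | had q => simp [Gate.asks, hK0]
  | tgate q => simp [Gate.asks, hK0]
  | cnot q r => simp [Gate.asks, hK0]

theorem sum_tot {ι : Type} [Fintype ι] (A : Oracle) (F : ι → Oracle) (K : ℝ) (B : ℕ) (hK0 : 0 ≤ K)
    (hK : ∀ y : List Bool, y.length ≤ B → ((univ.filter fun i => F i y ≠ A y).card : ℝ) ≤ K)
    (C : List Gate) (hC : Short B C) : ∀ ψ : Basis m → ℂ,
    ∑ i, tot A (F i) C ψ ≤ C.length * K * ∑ z, ‖ψ z‖ ^ 2 := by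
  induction C with
  | nil => intro ψ; simp [tot]
  | cons g C ih =>
    intro ψ
    simp only [tot]
    rw [sum_add_distrib]
    have h1 := sum_wt A F K B hK0 hK g (fun l r h => hC l r (by rw [h]; simp)) ψ
    have h2 := ih (fun l r h => hC l r (List.mem_cons_of_mem _ h)) (g.act A ψ)
    rw [act_norm] at h2
    rw [List.length_cons]
    push_cast
    nlinarith

theorem ket_norm (z : Basis m) : ∑ w, ‖ket z w‖ ^ 2 = 1 := by
  rw [Finset.sum_eq_single z]
  · simp [ket]
  · intro w _ hw
    simp [ket, hw]
  · simp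

theorem prob_diff (A A' : Oracle) (C : List Gate) (m : ℕ) (x : List Bool) :
    |prob A' C m x - prob A C m x| ≤
      2 * nrm (run A' C (ket (inp m x)) - run A C (ket (inp m x))) := by
  set u := run A' C (ket (inp m x)) with hu
  set v := run A C (ket (inp m x)) with hv
  have hk : nrm (ket (inp m x)) = 1 := by
    have h1 : nrm (ket (inp m x)) ^ 2 = 1 := by
      rw [nrm_sq, ket_norm]
    have h2 := nrm_nonneg (ket (inp m x))
    nlinarith [sq_nonneg (nrm (ket (inp m x)) - 1)]
  have hu1 : nrm u = 1 := by rw [hu, nrm_run, hk]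
  have hv1 : nrm v = 1 := by rw [hv, nrm_run, hk]
  have h1 : |prob A' C m x - prob A C m x| ≤ ∑ z, ‖u z - v z‖ * (‖u z‖ + ‖v z‖) := by
    unfold prob
    rw [← sum_sub_distrib]
    refine (abs_sum_le_sum_abs _ _).trans (sum_le_sum fun z _ => ?_)
    have h2 : |‖u z‖ ^ 2 - ‖v z‖ ^ 2| ≤ ‖u z - v z‖ * (‖u z‖ + ‖v z‖) := by
      rw [sq_sub_sq, abs_mul, mul_comm]
      rw [abs_of_nonneg (show 0 ≤ ‖u z‖ + ‖v z‖ by positivity)]
      exact mul_le_mul_of_nonneg_right (abs_norm_sub_norm_le _ _) (by positivity)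
    split_ifs
    · exact h2
    · simp
      positivity
  have h2 : ∀ w : Basis m → ℂ, nrm w = 1 → ∑ z, ‖u z - v z‖ * ‖w z‖ ≤ nrm (u - v) := by
    intro w hw
    have h3 := Finset.sum_mul_sq_le_sq_mul_sq univ (fun z => ‖u z - v z‖) (fun z => ‖w z‖)
    rw [← nrm_sq w, hw] at h3
    have h4 : ∑ z, ‖u z - v z‖ ^ 2 = nrm (u - v) ^ 2 := by rw [nrm_sq]; rfl
    rw [h4] at h3
    have h5 : 0 ≤ ∑ z, ‖u z - v z‖ * ‖w z‖ := sum_nonneg fun z _ => by positivity
    have h6 := nrm_nonneg (u - v)
    nlinarith
  have h3 := h2 u hu1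
  have h4 := h2 v hv1
  have h5 : ∑ z, ‖u z - v z‖ * (‖u z‖ + ‖v z‖) =
      ∑ z, ‖u z - v z‖ * ‖u z‖ + ∑ z, ‖u z - v z‖ * ‖v z‖ := by
    rw [← sum_add_distrib]
    exact sum_congr rfl fun z _ => by ring
  linarith

/-- **Few oracles of a family are noticed by a quantum circuit.** -/
theorem sum_prob_diff {ι : Type} [Fintype ι] (A : Oracle) (F : ι → Oracle) (K : ℝ) (B : ℕ)
    (hK0 : 0 ≤ K)
    (hK : ∀ y : List Bool, y.length ≤ B → ((univ.filter fun i => F i y ≠ A y).card : ℝ) ≤ K)
    (C : List Gate) (hC : Short B C) (m : ℕ) (x : List Bool) :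
    ∑ i, (prob (F i) C m x - prob A C m x) ^ 2 ≤ 16 * (C.length : ℝ) ^ 2 * K := by
  have h1 : ∀ i, (prob (F i) C m x - prob A C m x) ^ 2 ≤
      16 * C.length * tot A (F i) C (ket (inp m x)) := by
    intro i
    have h2 := prob_diff A (F i) C m x
    have h3 := hybrid A (F i) C (ket (inp m x))
    have h4 := nrm_nonneg (run (F i) C (ket (inp m x)) - run A C (ket (inp m x)))
    have h5 : (prob (F i) C m x - prob A C m x) ^ 2 ≤
        (2 * nrm (run (F i) C (ket (inp m x)) - run A C (ket (inp m x)))) ^ 2 := by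
      rw [← sq_abs]
      exact pow_le_pow_left₀ (abs_nonneg _) h2 2
    nlinarith
  refine (sum_le_sum fun i _ => h1 i).trans ?_
  rw [← mul_sum]
  have h2 := sum_tot A F K B hK0 hK C hC (ket (inp m x))
  have h3 : ∑ z, ‖ket (inp m x) z‖ ^ 2 = (1 : ℝ) := ket_norm _
  rw [h3, mul_one] at h2
  have h4 : (0 : ℝ) ≤ 16 * C.length := by positivity
  nlinarith [mul_le_mul_of_nonneg_left h2 h4]

end Pool.Agent.H9x.Q
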